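import Pool.Agent.helper68.GB.Spec

/-!
# Row gb:UNZ (MP_baa4d7_al): roots of a block are conjugate
-/

set_option autoImplicit false

namespace Pool.Agent.GB

open Pool.Agent.helper58.DC Pool.Agent.DI Pool.Agent.GR Pool.Agent.OB Pool.Agent.DR Pool.Agent.FI Pool.Agent.FI3 Pool.Agent.FI4 Pool.Agent.LE Pool.Agent.BR

/-- the central characters of functions which agree modulo `M` on the subgroup -/
theorem UNZ_cc (hCCI : CCI_stmt) {p : ℕ} {M : Ideal (integralClosure ℤ ℂ)} (hS : Setup p M) {G : Type} [Group G] [Finite G]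
    {C L : Subgroup G} (hCL : C ≤ L) {θ : G → ℂ} (hθ : θ ∈ IrrOn C) {z a : G → ℂ} (hz : CF L z) (ha : CF C a)
    (h : ∀ x ∈ C, InM M (z x - a x)) : InM M (cc θ z - cc θ a) := by
  obtain ⟨h1, -, h3⟩ := hCCI G C θ hθ
  have e1 : cc θ z = cc θ (cut C z) := (cc_cut (fun x hx => IrrOn_zero hθ hx) z).symm
  rw [e1, ← (h1 0 (cut C z) a).2.1]
  have hcut : CF C (cut C z) := CF_cut hCL hz.1
  refine (h3 p M hS _ ?_).2 ?_
  · intro g hg x
    show cut C z (g * x * g⁻¹) - a (g * x * g⁻¹) = cut C z x - a x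
    rw [hcut.1 g hg x, ha.1 g hg x]
  · intro x
    show InM M (cut C z x - a x)
    by_cases hx : x ∈ C
    · rw [cut_mem hx]
      exact h x hx
    · rw [cut_not hx, ha.2 x hx, sub_zero]
      exact InM.zero hS

/-- **Row UNZ.** -/
theorem UNZ (hEXZ : EXZ_stmt) (hBQA : BQA_stmt) (hIVS : IVS_stmt) (hIDM : IDM_stmt) (hEIN : EIN_stmt) (hCVF : CVF_stmt)
    (hCCI : CCI_stmt) (hSYL : SYL_stmt) : UNZ_stmt := by
  intro p M hS G _ _ L D x ψ hψ hD hCL θ hθ hθψ θ' hθ' hθ'ψ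
  classical
  have hFp : Fact p.Prime := ⟨hS.pr⟩
  obtain ⟨hSa, -, -, -, -, hSf, -⟩ := hSYL p G
  obtain ⟨-, -, -, -, hV5, hV6, -, hV8, -, -, hV11, -⟩ := hCVF G
  have hDL : D ≤ L := fun d hd => (mem_Cz.1 (hD.le hd)).1
  obtain ⟨C, hC⟩ : ∃ C, C = cz D := ⟨_, rfl⟩
  rw [← hC] at hCL hθ hθ' ⊢
  have hcjC : ∀ n ∈ nz D, cj n C = C := by
    intro n hn
    rw [hC, ← cj_cz, cj_nz.2 hn]
  have hconjC : ∀ n ∈ nz D, ∀ u, n * u * n⁻¹ ∈ C ↔ u ∈ C := by
    intro n hn u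
    have e := conj_mem_cj (g := n) (K := C) (x := u)
    rwa [hcjC n hn] at e
  obtain ⟨S, hSdef⟩ : ∃ S : Set (G → ℂ), S = {η | η ∈ IrrOn C ∧ ∃ n ∈ L, n ∈ nz D ∧ SB M C (cjF n η) θ} := ⟨_, rfl⟩
  have hmem : ∀ η, η ∈ S ↔ η ∈ IrrOn C ∧ ∃ n ∈ L, n ∈ nz D ∧ SB M C (cjF n η) θ := fun η => by rw [hSdef]; exact Iff.rfl
  have hSsub : S ⊆ IrrOn C := fun η hη => ((hmem η).1 hη).1
  have hBC : BC M C S := by
    refine ⟨hSsub, ?_⟩
    intro η hη η' hη' hc
    obtain ⟨h1, n, hn, hn', hsb⟩ := (hmem η).1 hη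
    have h2 : SB M C η η' := hc
    refine (hmem η').2 ⟨hη', n, hn, hn', ?_⟩
    have h3 := SB_conj h2 n
    rw [hcjC n hn'] at h3
    exact h3.symm.trans hsb
  have hSinv : ∀ g, g ∈ L → g ∈ nz D → ∀ η ∈ S, funMap (MulAut.conj g) η ∈ S := by
    intro g hg hg' η hη
    obtain ⟨h1, n, hn, hn', hsb⟩ := (hmem η).1 hη
    refine (hmem _).2 ⟨?_, n * g⁻¹, L.mul_mem hn (L.inv_mem hg), (nz D).mul_mem hn' ((nz D).inv_mem hg'), ?_⟩
    · have h2 := IrrOn_funMap h1 g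
      rwa [hcjC g hg'] at h2
    · show SB M C (funMap (MulAut.conj (n * g⁻¹)) (funMap (MulAut.conj g) η)) θ
      rw [← funMap_mul, inv_mul_cancel_right]
      exact hsb
  obtain ⟨E, hE⟩ : ∃ E, E = eS C S := ⟨_, rfl⟩
  obtain ⟨hE1, hE2, -, -⟩ := hIDM G C S hSsub
  rw [← hE] at hE1 hE2
  have hEint : ∀ u, IntAt M (E u) := fun u => by rw [hE]; exact hEIN p M hS G C S hBC u
  have hEinv : ∀ g, g ∈ L → g ∈ nz D → ∀ u, E (g * u * g⁻¹) = E u := by
    intro g hg hg' u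
    rw [hE]
    exact hIVS G C S hSsub g (hSinv g hg hg') u
  -- the class of `x`
  obtain ⟨k, hk⟩ : ∃ k, k = cut C (cls L x) := ⟨_, rfl⟩
  have hkCF : CF C k := by rw [hk]; exact CF_cut hCL fun l hl u => cls_inv hl x u
  have hkint : ∀ u, IntAt M (k u) := by
    intro u
    rw [hk]
    by_cases hu : u ∈ C
    · rw [cut_mem hu]
      exact IntAt.of_isIntegral hS (cls_int L x u)
    · rw [cut_not hu]
      exact IntAt.zero hS
  have hkinv : ∀ g, g ∈ L → g ∈ nz D → ∀ u, k (g * u * g⁻¹) = k u := by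
    intro g hg hg' u
    rw [hk]
    by_cases hu : u ∈ C
    · rw [cut_mem hu, cut_mem ((hconjC g hg' u).2 hu)]
      exact cls_inv hg x u
    · rw [cut_not hu, cut_not fun h => hu ((hconjC g hg' u).1 h)]
  obtain ⟨a, ha⟩ : ∃ a, a = cv E k := ⟨_, rfl⟩
  have haCF : CF C a := by rw [ha]; exact (hV8 C E k hE1 hkCF).1
  have haint : ∀ u, IntAt M (a u) := by rw [ha]; exact hV11 p M hS E k hEint hkint
  have hainv : ∀ g, g ∈ L → g ∈ nz D → ∀ u, a (g * u * g⁻¹) = a u := by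
    intro g hg hg'
    rw [ha]
    exact hV5 g E k (hEinv g hg hg') (hkinv g hg hg')
  have haR : ∀ R : Subgroup G, IsPGroup p R → D < R → R ≤ L → R ≤ nz D → ∀ u ∈ cz R, InM M (a u) := by
    intro R hR hDR hRL hRN u hu
    have h1 := hBQA p M hS G R hR E k (fun r hr => hEinv r (hRL hr) (hRN hr)) (fun r hr => hkinv r (hRL hr) (hRN hr)) hEint hkint u hu
    have h2 : rsH (cz R) k = fun _ => 0 := by
      funext v
      by_cases hv : v ∈ cz R
      · have e0 : rsH (cz R) k v = k v := by simp [rsH, hv]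
        rw [e0]
        by_contra hne
        have hvC : v ∈ C := by
          by_contra hc
          apply hne
          rw [hk, cut_not hc]
        have hcl : cls L x v ≠ 0 := by
          rw [hk, cut_mem hvC] at hne
          exact hne
        obtain ⟨l, hl, hlv⟩ := cls_ne hcl
        have hRC : R ≤ Cz L v := by
          intro r hr
          refine mem_Cz.2 ⟨hRL hr, ?_⟩
          exact ((Subgroup.mem_centralizer_iff.1 hv) r hr).symm
        have h3 := (hSa R (Cz L v) hR hRC).1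
        rw [← hlv, (hSf L x l hl).2, ← hD.card] at h3
        have h4 : Nat.card D < Nat.card R := by
          have h5 : (D : Set G) ⊂ (R : Set G) := hDR
          exact Set.Finite.card_lt_card (Set.toFinite _) h5
        omega
      · simp [rsH, hv]
    rw [h2] at h1
    have h3 : cv (rsH (cz R) E) (fun _ => (0 : ℂ)) u = 0 := by
      unfold cv
      simp
    rw [h3, sub_zero, ← ha] at h1
    exact h1
  obtain ⟨z, hz1, hz2, hz3, -⟩ := hEXZ p M hS G L D hD.pg hDL a haint (fun u hu => haCF.2 u fun h => hu ⟨hCL h, hC ▸ h⟩)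
    (fun n hn hn' u => hainv n hn hn' u) haR
  have hz3' : ∀ u ∈ C, InM M (z u - a u) := fun u hu => hz3 u ⟨hCL hu, hC ▸ hu⟩
  have hkcc : ∀ η ∈ IrrOn C, cc η k = cc η (cls L x) := by
    intro η hη
    rw [hk]
    exact cc_cut (fun u hu => IrrOn_zero hη hu) _
  have hacc : ∀ η ∈ IrrOn C, cc η a = cc η E * cc η k := by
    intro η hη
    rw [ha]
    exact (hCCI G C η hη).2.1 E k hE1 hkCF
  have hθS : θ ∈ S := by
    refine (hmem θ).2 ⟨hθ, 1, L.one_mem, (nz D).one_mem, ?_⟩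
    show SB M C (funMap (MulAut.conj (1 : G)) θ) θ
    rw [funMap_one']
    exact SB.refl _ _
  by_contra hcon
  have hθ'S : θ' ∉ S := by
    intro h
    obtain ⟨-, n, hn, hn', hsb⟩ := (hmem θ').1 h
    exact hcon ⟨n, hn, hn', hsb⟩
  have e1 : InM M (cc θ z - cc θ a) := UNZ_cc hCCI hS hCL hθ hz1 haCF hz3'
  have e2 : InM M (cc θ' z - cc θ' a) := UNZ_cc hCCI hS hCL hθ' hz1 haCF hz3'
  have e3 : cc θ a = cc θ (cls L x) := by
    rw [hacc θ hθ, hE2 θ hθ, if_pos hθS, one_mul, hkcc θ hθ]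
  have e4 : cc θ' a = 0 := by
    rw [hacc θ' hθ', hE2 θ' hθ', if_neg hθ'S, zero_mul]
  have e5 : InM M (cc θ z - cc ψ z) := SBIb hS hθψ hz1 hz2
  have e6 : InM M (cc θ' z - cc ψ z) := SBIb hS hθ'ψ hz1 hz2
  have e7 : InM M (cc θ (cls L x) - cc ψ (cls L x)) :=
    SBIb hS hθψ (cls_CF hD.mem) fun u => IntAt.of_isIntegral hS (cls_int L x u)
  apply hD.ne
  have e9 : cc ψ (cls L x) = -(cc θ (cls L x) - cc ψ (cls L x)) + (cc θ (cls L x) - cc θ z) + (cc θ z - cc ψ z) -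
      (cc θ' z - cc ψ z) + (cc θ' z - cc θ' a) := by
    rw [e4]
    ring
  rw [e9]
  refine InM.add hS (InM.sub hS (InM.add hS (InM.add hS (InM.neg e7) ?_) e5) e6) e2
  have e10 := InM.neg e1
  rw [e3] at e10
  have e11 : cc θ (cls L x) - cc θ z = -(cc θ z - cc θ (cls L x)) := by ring
  rw [e11]
  exact e10

end Pool.Agent.GB

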